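import Pool.Agent.W2helper9.OP.Stm

/-!
# Project OP, piece CMAP

`Φ` preserves congruence at a place of good reduction.
-/

set_option autoImplicit false

open MvPolynomial

namespace Pool.Agent.W2helper56.OP

open Pool.Agent.W2helper9.OP
open Pool.Agent.Helper819.Dyn (Tuple)

/-- A polynomial with coefficients in `A` takes congruent values at congruent points of `A`. -/
theorem eval_cong {L : Type} [Field L] {n : ℕ} (A : ValuationSubring L)
    (p : MvPolynomial (Fin n) L) (hp : ∀ m, coeff m p ∈ A) (x y : Fin n → L)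
    (hx : ∀ i, x i ∈ A) (hy : ∀ i, y i ∈ A) (hxy : ∀ i, A.valuation (x i - y i) < 1) :
    eval x p ∈ A ∧ A.valuation (eval x p - eval y p) < 1 := by
  classical
  have hev : ∀ (z : Fin n → L) (hz : ∀ i, z i ∈ A), eval z p =
      ((∑ m ∈ p.support, (⟨coeff m p, hp m⟩ : A) * ∏ i, (⟨z i, hz i⟩ : A) ^ m i : A) : L) := by
    intro z hz
    rw [eval_eq']
    push_cast
    rfl
  have hres : ∀ i, IsLocalRing.residue A (⟨x i, hx i⟩ : A) =
      IsLocalRing.residue A (⟨y i, hy i⟩ : A) := by
    intro i
    rw [← sub_eq_zero, ← map_sub, IsLocalRing.residue_eq_zero_iff, ValuationSubring.valuation_lt_one_iff]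
    exact hxy i
  refine ⟨?_, ?_⟩
  · rw [hev x hx]
    exact SetLike.coe_mem _
  · rw [hev x hx, hev y hy, ← AddSubgroupClass.coe_sub, ← ValuationSubring.valuation_lt_one_iff,
      ← IsLocalRing.residue_eq_zero_iff, map_sub, sub_eq_zero]
    simp only [map_sum, map_mul, map_prod, map_pow, hres]

/-- Values of a form at a scaled point. -/
theorem aeval_scale {k L : Type} [Field k] [Field L] [Algebra k L] {n d : ℕ}
    (p : MvPolynomial (Fin n) k) (hp : p.IsHomogeneous d) (a : L) (x : Fin n → L) :
    aeval (fun i => a * x i) p = a ^ d * aeval x p := by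
  classical
  rw [aeval_def, aeval_def, eval₂_eq', eval₂_eq', Finset.mul_sum]
  refine Finset.sum_congr rfl fun m hm => ?_
  have h1 : ∑ i, m i = d := by
    have h2 := hp (mem_support_iff.mp hm)
    rw [← h2, Finsupp.weight_apply, Finsupp.sum_fintype]
    · simp
    · simp
  simp only [mul_pow, Finset.prod_mul_distrib]
  rw [Finset.prod_pow_eq_pow_sum, h1]
  ring

/-- **CMAP** `Φ` preserves congruence at a place of good reduction. -/
theorem p_cmap : P_CMAP := by
  intro K _ _ N d F A hF hG x y hxy
  obtain ⟨c, hc, hcA, hgood⟩ := hG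
  obtain ⟨a, b, h1, h2, h3⟩ := hxy
  set c' : AlgebraicClosure K := algebraMap K (AlgebraicClosure K) c with hc'
  have hax : ∀ i, a * x i ∈ A := fun i => (A.valuation_le_one_iff _).1 (h1 i)
  have hby : ∀ i, b * y i ∈ A := by
    intro i
    have h4 : b * y i = a * x i - (a * x i - b * y i) := by ring
    rw [h4]
    exact sub_mem (hax i) ((A.valuation_le_one_iff _).1 (h3 i).le)
  have hev : ∀ (i : Fin (N + 1)) (z : Fin (N + 1) → AlgebraicClosure K),
      eval z (map (algebraMap K (AlgebraicClosure K)) (C c * F i)) = c' * mp F z i := by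
    intro i z
    rw [eval_map, ← aeval_def, map_mul, aeval_C]
    rfl
  have hco : ∀ i m, coeff m (map (algebraMap K (AlgebraicClosure K)) (C c * F i)) ∈ A := by
    intro i m
    rw [coeff_map, coeff_C_mul]
    exact hcA i m
  have key := fun i => eval_cong A _ (hco i) (fun i => a * x i) (fun i => b * y i) hax hby h3
  simp only [hev] at key
  have hsc : ∀ (e : AlgebraicClosure K) (z : Fin (N + 1) → AlgebraicClosure K) (i : Fin (N + 1)),
      c' * mp F (fun i => e * z i) i = (c' * e ^ d) * mp F z i := by
    intro e z i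
    unfold mp
    rw [aeval_scale (F i) (hF i) e z, mul_assoc]
  simp only [hsc] at key
  refine ⟨c' * a ^ d, c' * b ^ d, fun i => (A.valuation_le_one_iff _).2 (key i).1, ?_,
    fun i => (key i).2⟩
  obtain ⟨i, hi⟩ := hgood (fun i => a * x i) hax h2
  refine ⟨i, ?_⟩
  rw [← hsc]
  exact hi

end Pool.Agent.W2helper56.OP
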